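import Mathlib
import Pool.Agent.Helper29_TDG.Stmts
import Pool.Agent.Helper53_TDG.Comp

/-!
# TDG, module EXA: there is a maximal optimal set
-/

set_option autoImplicit false

namespace Pool.Agent.TDG.H75

open Finset Helper77.TDG Pool.Agent.TDG

theorem exa : EXAStmt := by
  classical
  intro V X _ _ _ N Hv U
  have hne : (((U \ Hv).powerset).filter fun R => GG N Hv U R = Gam N Hv U).Nonempty := by
    obtain ⟨R, hR, h⟩ := exists_Gam (N := N) (Hv := Hv) (U := U)
    exact ⟨R, mem_filter.2 ⟨mem_powerset.2 hR, h⟩⟩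
  obtain ⟨A, hA, hmax⟩ := exists_max_image _ (fun R => R.card) hne
  rw [mem_filter, mem_powerset] at hA
  refine ⟨A, hA.1, hA.2, fun R hAR hR => ?_⟩
  refine lt_of_le_of_ne (Gam_le_GG hR) fun he => ?_
  have h1 := hmax R (mem_filter.2 ⟨mem_powerset.2 hR, he.symm⟩)
  exact absurd (card_lt_card hAR) (not_lt.2 h1)

end Pool.Agent.TDG.H75
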