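import Mathlib
import Pool.Agent.Helper29_TDG.Stmts
import Pool.Agent.Helper53_TDG.Comp

/-!
# TDG, module EL: the exchange lemma
-/

set_option autoImplicit false
set_option linter.unusedSectionVars false

namespace Pool.Agent.TDG.H75

open Finset Helper77.TDG Pool.Agent.TDG

section

variable {V X : Type} [Fintype V] [DecidableEq V] [DecidableEq X] {N : V → Finset X}
  {Hv U R T : Finset X}

theorem GG_empty {K : Finset X} (h : Conn N K) : GG N Hv K ∅ = gv N Hv K := by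
  unfold GG
  rw [sdiff_empty, h.comps]
  simp

theorem mem_Tt {x : X} : x ∈ Tt N Hv U R T ↔ x ∈ T ∧ ∀ K ∈ KO N Hv U R T, x ∉ K := by
  unfold Tt
  rw [mem_sdiff, mem_biUnion]
  simp only [id]
  constructor
  · rintro ⟨h1, h2⟩
    exact ⟨h1, fun K hK hx => h2 ⟨K, hK, hx⟩⟩
  · rintro ⟨h1, h2⟩
    exact ⟨h1, fun ⟨K, hK, hx⟩ => h2 K hK hx⟩

theorem mem_Rt {x : X} : x ∈ Rt N Hv U R T ↔ (x ∈ R ∨ x ∈ T) ∧ ∀ K ∈ HH N Hv U R T, x ∉ K := by
  unfold Rt
  rw [mem_sdiff, mem_biUnion, mem_union]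
  simp only [id]
  constructor
  · rintro ⟨h1, h2⟩
    exact ⟨h1, fun K hK hx => h2 ⟨K, hK, hx⟩⟩
  · rintro ⟨h1, h2⟩
    exact ⟨h1, fun ⟨K, hK, hx⟩ => h2 K hK hx⟩

theorem mem_KO {K : Finset X} : K ∈ KO N Hv U R T ↔
    K ∈ comps N (U \ R) ∧ (T ∩ K).Nonempty ∧ (Bad N Hv K ∨ sf N Hv K (T ∩ K) ≤ 0) := by
  classical
  unfold KO
  simp only [mem_filter]

end

theorem el (h1 : EL1Stmt) (h2 : EL2Stmt) (h3 : EL3Stmt) (h4 : EL4Stmt) : ELStmt := by
  intro V X _ _ _ N Hv U R T hW hR hT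
  have hTK : ∀ K : Finset X, K ∈ comps N (U \ R) → T ∩ K ⊆ K \ Hv := by
    intro K _ x hx
    rw [mem_inter] at hx
    rw [mem_sdiff]
    exact ⟨hx.2, (mem_sdiff.1 (hT hx.1)).2⟩
  refine ⟨Rt N Hv U R T, Tt N Hv U R T, ?_, ?_, ?_, ?_, ?_, ?_⟩
  · intro x hx
    rw [mem_Rt]
    refine ⟨Or.inr hx, fun D hD hxD => ?_⟩
    unfold HH at hD
    rw [mem_filter] at hD
    have h5 := comps_subset (bc_subset_comps hD.1) hxD
    exact (mem_sdiff.1 h5).2 hx
  · intro x hx
    rw [mem_Rt] at hx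
    rcases hx.1 with h | h
    · exact hR h
    · exact hT h
  · intro x hx
    exact (mem_Tt.1 hx).1
  · intro x hx
    rw [mem_inter] at hx
    rw [mem_Tt]
    refine ⟨hx.1, fun K hK hxK => ?_⟩
    have h5 := comps_subset (mem_KO.1 hK).1 hxK
    exact (mem_sdiff.1 h5).2 hx.2
  · intro K hK hne
    have hTK2 : T ∩ K ⊆ U \ Hv := inter_subset_left.trans hT
    have h5 := h2 V X N Hv U R (T ∩ K) hW hR hTK2
    rw [h5]
    have hsum : ∑ L ∈ comps N (U \ R), (GG N Hv L (T ∩ K ∩ L) - gv N Hv L) =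
        GG N Hv K (T ∩ K) - gv N Hv K := by
      rw [Finset.sum_eq_single K]
      · rw [inter_assoc, inter_self]
      · intro L hL hLK
        have h6 : T ∩ K ∩ L = ∅ := by
          have h7 := comps_disjoint hK hL (Ne.symm hLK)
          rw [disjoint_iff_inter_eq_empty] at h7
          rw [inter_assoc, h7, inter_empty]
        rw [h6, GG_empty (comps_conn hL), sub_self]
      · intro h6
        exact absurd hK h6
    rw [hsum]
    obtain ⟨x, hx⟩ := hne
    rw [mem_inter] at hx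
    have hxT := (mem_Tt.1 hx.1).1
    have hTKne : (T ∩ K).Nonempty := ⟨x, mem_inter.2 ⟨hxT, hx.2⟩⟩
    have hnKO : K ∉ KO N Hv U R T := fun h6 => (mem_Tt.1 hx.1).2 K h6 hx.2
    rw [mem_KO] at hnKO
    have hnb : ¬ Bad N Hv K := fun hb => hnKO ⟨hK, hTKne, Or.inl hb⟩
    have hsf : 0 < sf N Hv K (T ∩ K) := by
      by_contra hle
      exact hnKO ⟨hK, hTKne, Or.inr (not_lt.1 hle)⟩
    have h8 := (h4 V X N Hv K (T ∩ K) hW (comps_conn hK) (hTK K hK) hTKne).2.2 hnb hsf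
    linarith
  · have e1 := h1 V X N Hv U R T hW hR hT
    have e2 := h2 V X N Hv U R T hW hR hT
    have e3 := h3 V X N Hv U R T hW hR hT
    have hKO : KO N Hv U R T ⊆ comps N (U \ R) := fun K hK => (mem_KO.1 hK).1
    have hsum : ∑ K ∈ comps N (U \ R), (GG N Hv K (T ∩ K) - gv N Hv K) ≤
        - ∑ K ∈ KO N Hv U R T, sf N Hv K (T ∩ K) := by
      rw [← Finset.sum_neg_distrib, ← Finset.sum_sdiff hKO]
      have hA : ∑ K ∈ comps N (U \ R) \ KO N Hv U R T, (GG N Hv K (T ∩ K) - gv N Hv K) ≤ 0 := by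
        refine Finset.sum_nonpos fun K hK => ?_
        rw [mem_sdiff] at hK
        rcases (T ∩ K).eq_empty_or_nonempty with h6 | h6
        · rw [h6, GG_empty (comps_conn hK.1), sub_self]
        · have hnKO := hK.2
          rw [mem_KO] at hnKO
          have hnb : ¬ Bad N Hv K := fun hb => hnKO ⟨hK.1, h6, Or.inl hb⟩
          have hsf : 0 < sf N Hv K (T ∩ K) := by
            by_contra hle
            exact hnKO ⟨hK.1, h6, Or.inr (not_lt.1 hle)⟩
          exact (h4 V X N Hv K (T ∩ K) hW (comps_conn hK.1) (hTK K hK.1) h6).2.2 hnb hsf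
      have hB : ∑ K ∈ KO N Hv U R T, (GG N Hv K (T ∩ K) - gv N Hv K) ≤
          ∑ K ∈ KO N Hv U R T, -sf N Hv K (T ∩ K) := by
        refine Finset.sum_le_sum fun K hK => ?_
        rw [mem_KO] at hK
        have h7 := h4 V X N Hv K (T ∩ K) hW (comps_conn hK.1) (hTK K hK.1) hK.2.1
        by_cases hb : Bad N Hv K
        · exact h7.1 hb
        · exact h7.2.1 hb (hK.2.2.resolve_left hb)
      linarith
    linarith

end Pool.Agent.TDG.H75
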